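import Pool.Agent.H55.CU.Targets

/-!
# Row UDC of cou_modules: the first excursion with more than `k` sites
-/

set_option autoImplicit false

open MeasureTheory ProbabilityTheory Filter Topology
open scoped ENNReal
open Pool.Agent.H95 Pool.Agent.H95.Cop Pool.Agent.H96.Cop Pool.Agent.H55.CU

namespace Pool.Agent.H20.CU

/-- the power series of a sequence, without the constant term -/
noncomputable def PS (κ : ℕ → ℝ) : PowerSeries ℝ := PowerSeries.mk (fun n => if n = 0 then 0 else κ n)

lemma ps_eq (κ : ℕ → ℝ) : PowerSeries.mk (uu κ) = 1 + PS κ * PowerSeries.mk (uu κ) := by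
  ext n
  rw [map_add, PowerSeries.coeff_mul, Finset.Nat.sum_antidiagonal_eq_sum_range_succ_mk,
    PowerSeries.coeff_mk]
  cases n with
  | zero => simp [PS, uu_zero]
  | succ n =>
    rw [Finset.sum_range_succ', uu_succ]
    simp [PS, PowerSeries.coeff_one]

lemma ren_diff (κ κ0 : ℕ → ℝ) (s : ℕ) : uu κ s = uu κ0 s + ∑ t ∈ Finset.range (s + 1),
    uu κ0 t * ∑ m ∈ Finset.range (s - t + 1),
      (if m = 0 then 0 else κ m - κ0 m) * uu κ (s - t - m) := by
  have h1 := ps_eq κ
  have h2 := ps_eq κ0
  have h : PowerSeries.mk (uu κ) = PowerSeries.mk (uu κ0) +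
      PowerSeries.mk (uu κ0) * ((PS κ - PS κ0) * PowerSeries.mk (uu κ)) := by
    linear_combination PowerSeries.mk (uu κ0) * h1 - PowerSeries.mk (uu κ) * h2
  have h3 := congrArg (PowerSeries.coeff (R := ℝ) s) h
  rw [map_add, PowerSeries.coeff_mul, Finset.Nat.sum_antidiagonal_eq_sum_range_succ_mk,
    PowerSeries.coeff_mk, PowerSeries.coeff_mk] at h3
  rw [h3]
  congr 1
  apply Finset.sum_congr rfl
  intro t _
  simp only [PowerSeries.coeff_mk]
  congr 1
  rw [PowerSeries.coeff_mul, Finset.Nat.sum_antidiagonal_eq_sum_range_succ_mk]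
  apply Finset.sum_congr rfl
  intro m _
  simp only [PowerSeries.coeff_mk, PS, map_sub]
  congr 1
  split_ifs <;> simp

theorem pf_UDC : T_UDC := by
  intro K k b s
  rw [ren_diff (khr K k b) (k0 K k b) s]
  refine le_of_eq ?_
  congr 1
  apply Finset.sum_congr rfl
  intro t ht
  rw [Finset.mem_range] at ht
  rw [Finset.mul_sum, ← Finset.sum_filter]
  have hc : ∀ m, (if m = 0 then (0 : ℝ) else khr K k b m - k0 K k b m) =
      if k < m then kk K m / 2 else 0 := by
    intro m
    unfold k0 khr
    by_cases h0 : m = 0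
    · subst h0
      simp
    · rw [if_neg h0]
      by_cases h1 : m ≤ k
      · rw [if_pos h1, if_pos h1, if_neg (by omega), sub_self]
      · rw [if_neg h1, if_neg h1, if_pos (by omega), sub_zero]
  symm
  have hsub : (Finset.Ioc k s).filter (fun m => t + m ≤ s) ⊆ Finset.range (s - t + 1) := by
    intro m hm
    rw [Finset.mem_filter] at hm
    rw [Finset.mem_range]
    omega
  rw [← Finset.sum_subset hsub]
  · apply Finset.sum_congr rfl
    intro m hm
    rw [Finset.mem_filter, Finset.mem_Ioc] at hm
    rw [hc m, if_pos hm.1.1]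
    ring
  · intro m hm hm2
    rw [Finset.mem_range] at hm
    rw [Finset.mem_filter, Finset.mem_Ioc] at hm2
    rw [hc m, if_neg (by omega), zero_mul, mul_zero]

end Pool.Agent.H20.CU
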