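import Pool.Agent.H55.CU.Targets

/-!
# Row PW of cou_modules: the pointwise bound for the renewal inequality
-/

set_option autoImplicit false

open MeasureTheory ProbabilityTheory Filter Topology
open scoped ENNReal
open Pool.Agent.H95 Pool.Agent.H95.Cop Pool.Agent.H96.Cop Pool.Agent.H55.CU

namespace Pool.Agent.H20.CU

lemma reidx (X : ℕ → ℝ) (hX : ∀ a, 0 ≤ X a) (S : Finset ℕ) (N : ℕ) (e : ℕ → ℕ)
    (he : ∀ x ∈ S, ∀ y ∈ S, e x = e y → x = y) (hr : ∀ x ∈ S, e x < N) :
    ∑ x ∈ S, X (e x) ≤ ∑ i ∈ Finset.range N, X i := by
  rw [← Finset.sum_image (f := X) (g := e) (by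
    intro x hx y hy h
    exact he x hx y hy h)]
  apply Finset.sum_le_sum_of_subset_of_nonneg
  · intro i hi
    rw [Finset.mem_image] at hi
    obtain ⟨x, hx, rfl⟩ := hi
    exact Finset.mem_range.2 (hr x hx)
  · intro i _ _
    exact hX i

lemma fpow {ε u v : ℝ} (hε : 0 < ε) (hε1 : ε ≤ 1) (hu : 0 < u) {c : ℝ} (hc : 1 ≤ c)
    (h : u ≤ c * v) : v ^ (-(1 + ε)) ≤ c ^ 2 * u ^ (-(1 + ε)) := by
  have hc0 : 0 < c := by linarith
  have h1 : u / c ≤ v := by
    rw [div_le_iff₀ hc0]
    linarith
  have h2 : v ^ (-(1 + ε)) ≤ (u / c) ^ (-(1 + ε)) :=
    Real.rpow_le_rpow_of_nonpos (by positivity) h1 (by linarith)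
  have h3 : (u / c) ^ (-(1 + ε)) = u ^ (-(1 + ε)) * c ^ (1 + ε) := by
    rw [Real.div_rpow hu.le hc0.le, Real.rpow_neg hc0.le, div_inv_eq_mul]
  have h4 : c ^ (1 + ε) ≤ c ^ 2 := by
    rw [← Real.rpow_natCast c 2]
    exact Real.rpow_le_rpow_of_exponent_le hc (by push_cast; linarith)
  rw [h3] at h2
  have h5 : 0 ≤ u ^ (-(1 + ε)) := Real.rpow_nonneg hu.le _
  nlinarith

theorem pf_PW (hMAS : T_MAS) : T_PW := by
  intro J g q β ε D M M' F X d hJ hg hgq hβ hε hε1 hD hF hX hFM hMq hFM' hrec hFd hdD
  have hJr : (1 : ℝ) ≤ J := by exact_mod_cast hJ
  have hq : 0 ≤ q := le_trans (by positivity) hgq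
  have hM : 0 ≤ M := by
    have := hFM 0
    simpa using this
  have hM' : 0 ≤ M' := le_trans (Finset.sum_nonneg (fun i _ => hF i)) hFM'
  have hmas := hMAS J g q F X hJ hg hgq hF hX (fun n =>
    (mul_le_mul_of_nonneg_right (hFM n) hq).trans hMq) hrec
  have hX2 : ∀ n, ∑ a ∈ Finset.range n, X a ≤ 2 * M := by
    intro n
    have h1 := hmas n
    have h2 := hFM n
    linarith
  set f : ℕ → ℝ := fun a => β * (1 + (a : ℝ)) ^ (-(1 + ε)) with hf
  have hf0 : ∀ a, 0 < f a := by
    intro a
    simp only [hf]
    positivity
  have hfle : ∀ (c : ℝ) (a a' : ℕ), 1 ≤ c → 1 + (a : ℝ) ≤ c * (1 + (a' : ℝ)) →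
      f a' ≤ c ^ 2 * f a := by
    intro c a a' hc h
    have h1 := fpow hε hε1 (by positivity : (0 : ℝ) < 1 + (a : ℝ)) hc h
    simp only [hf]
    nlinarith
  set R : ℕ → ℝ := fun a => if a ≤ 8 * J then 2 * g * M' ^ 2 / β * (1 + (a : ℝ)) ^ (1 + ε) else 0
    with hR
  have hR0 : ∀ a, 0 ≤ R a := by
    intro a
    simp only [hR]
    split_ifs
    · positivity
    · exact le_rfl
  have hRf : ∀ a, a ≤ 8 * J → R a * f a = 2 * g * M' ^ 2 := by
    intro a ha
    simp only [hR, hf]
    rw [if_pos ha]
    have h1 : (1 + (a : ℝ)) ^ (1 + ε) * (1 + (a : ℝ)) ^ (-(1 + ε)) = 1 := by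
      rw [← Real.rpow_add (by positivity)]
      simp
    have h2 : 2 * g * M' ^ 2 / β * (1 + (a : ℝ)) ^ (1 + ε) * (β * (1 + (a : ℝ)) ^ (-(1 + ε))) =
        (2 * g * M' ^ 2 / β * β) * ((1 + (a : ℝ)) ^ (1 + ε) * (1 + (a : ℝ)) ^ (-(1 + ε))) := by
      ring
    rw [h2, h1, mul_one, div_mul_cancel₀ _ hβ.ne']
  have hqMD : 0 ≤ 36 * q * M * D := by positivity
  have hdle : ∀ a, 1 ≤ a → d a ≤ D := by
    intro a ha
    have h1 := hdD a ha
    have h2 := hR0 a
    simp only [hR] at h2
    linarith
  have hFD : ∀ a, 1 ≤ a → F a ≤ D * f a := by
    intro a ha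
    exact (hFd a ha).trans (mul_le_mul_of_nonneg_right (hdle a ha) (hf0 a).le)
  constructor
  · have h := hrec 0
    have hz : ∑ b ∈ Finset.range (0 + 1), ∑ j ∈ Finset.Icc J (2 * J),
        (if b + j ≤ 0 then F b * g * X (0 - b - j) else 0) = 0 := by
      apply Finset.sum_eq_zero
      intro b _
      apply Finset.sum_eq_zero
      intro j hj
      rw [Finset.mem_Icc] at hj
      rw [if_neg (by omega)]
    rw [hz, add_zero] at h
    exact h
  · have key : ∀ a, 1 ≤ a → X a ≤ (d a + (36 * q * M * D + R a)) * f a := by
      intro a
      induction a using Nat.strong_induction_on with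
      | _ a ih =>
        intro ha
        have hXD : ∀ i, 1 ≤ i → i < a → X i ≤ D * f i := by
          intro i hi hia
          refine (ih i hia hi).trans (mul_le_mul_of_nonneg_right ?_ (hf0 i).le)
          exact hdD i hi
        have hfa := (hf0 a).le
        -- the three kinds of terms
        have hterm : ∀ b ∈ Finset.range (a + 1), ∀ j ∈ Finset.Icc J (2 * J),
            (if b + j ≤ a then F b * g * X (a - b - j) else 0) ≤
            F b * (g * (4 * D * f a)) +
            16 * D * f a * g * (if b + j ≤ a then X (a - b - j) else 0) +
            (if a ≤ 8 * J then F b * g * (if b + j ≤ a then X (a - b - j) else 0) else 0) := by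
          intro b _ j hj
          rw [Finset.mem_Icc] at hj
          have hFb := hF b
          have t1 : 0 ≤ F b * (g * (4 * D * f a)) := by positivity
          by_cases hbj : b + j ≤ a
          · have hXx := hX (a - b - j)
            have t2 : 0 ≤ 16 * D * f a * g * X (a - b - j) := by positivity
            have t3 : 0 ≤ F b * g * X (a - b - j) := by positivity
            have t3' : 0 ≤ (if a ≤ 8 * J then F b * g * X (a - b - j) else 0) := by
              split_ifs
              · exact t3
              · exact le_rfl
            rw [if_pos hbj, if_pos hbj]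
            by_cases h1 : 2 * (b + j) ≤ a
            · have h2 := hXD (a - b - j) (by omega) (by omega)
              have h3 : f (a - b - j) ≤ 2 ^ 2 * f a := by
                apply hfle 2 a (a - b - j) (by norm_num)
                have h4 : 1 + a ≤ 2 * (1 + (a - b - j)) := by omega
                have h5 : ((1 + a : ℕ) : ℝ) ≤ ((2 * (1 + (a - b - j)) : ℕ) : ℝ) := by
                  exact_mod_cast h4
                rw [Nat.cast_add, Nat.cast_mul, Nat.cast_add] at h5
                push_cast at h5 ⊢
                exact h5
              have h4 : X (a - b - j) ≤ 4 * D * f a := by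
                have := mul_le_mul_of_nonneg_left h3 hD
                linarith
              have h5 : F b * g * X (a - b - j) ≤ F b * (g * (4 * D * f a)) := by
                rw [mul_assoc]
                exact mul_le_mul_of_nonneg_left (mul_le_mul_of_nonneg_left h4 hg) hFb
              linarith
            · by_cases h2 : a < 4 * b
              · have h3 := hFD b (by omega)
                have h4 : f b ≤ 4 ^ 2 * f a := by
                  apply hfle 4 a b (by norm_num)
                  have h4 : 1 + a ≤ 4 * (1 + b) := by omega
                  have h5 : ((1 + a : ℕ) : ℝ) ≤ ((4 * (1 + b) : ℕ) : ℝ) := by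
                    exact_mod_cast h4
                  push_cast at h5
                  exact h5
                have h5 : F b ≤ 16 * D * f a := by
                  have := mul_le_mul_of_nonneg_left h4 hD
                  linarith
                have h6 : F b * g * X (a - b - j) ≤ 16 * D * f a * g * X (a - b - j) :=
                  mul_le_mul_of_nonneg_right (mul_le_mul_of_nonneg_right h5 hg) hXx
                linarith
              · rw [if_pos (by omega : a ≤ 8 * J)]
                linarith
          · rw [if_neg hbj, if_neg hbj]
            simp only [mul_zero, ite_self, add_zero]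
            exact t1
        have hsum1 : ∑ b ∈ Finset.range (a + 1), ∑ j ∈ Finset.Icc J (2 * J),
            F b * (g * (4 * D * f a)) ≤ 4 * q * M * D * f a := by
          have hcard : (Finset.Icc J (2 * J)).card = J + 1 := by
            rw [Nat.card_Icc]
            omega
          have e1 : ∑ b ∈ Finset.range (a + 1), ∑ j ∈ Finset.Icc J (2 * J),
              F b * (g * (4 * D * f a)) =
              (∑ b ∈ Finset.range (a + 1), F b) * ((((J : ℝ) + 1) * g) * (4 * D * f a)) := by
            rw [Finset.sum_mul]
            apply Finset.sum_congr rfl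
            intro b _
            rw [Finset.sum_const, hcard, nsmul_eq_mul]
            push_cast
            ring
          rw [e1]
          have h1 : (((J : ℝ) + 1) * g) * (4 * D * f a) ≤ q * (4 * D * f a) :=
            mul_le_mul_of_nonneg_right hgq (by positivity)
          have h2 := hFM (a + 1)
          calc (∑ b ∈ Finset.range (a + 1), F b) * ((((J : ℝ) + 1) * g) * (4 * D * f a))
              ≤ M * (q * (4 * D * f a)) :=
                mul_le_mul h2 h1 (by positivity) hM
            _ = 4 * q * M * D * f a := by ring
        have hinner2 : ∀ j, ∑ b ∈ Finset.range (a + 1), (if b + j ≤ a then X (a - b - j) else 0) ≤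
            ∑ i ∈ Finset.range (a + 1), X i := by
          intro j
          rw [← Finset.sum_filter]
          apply reidx X hX _ _ (fun b => a - b - j)
          · intro x hx y hy h
            rw [Finset.mem_filter] at hx hy
            omega
          · intro x _
            omega
        have hinner3 : ∀ b, ∑ j ∈ Finset.Icc J (2 * J), (if b + j ≤ a then X (a - b - j) else 0) ≤
            ∑ i ∈ Finset.range (a + 1), X i := by
          intro b
          rw [← Finset.sum_filter]
          apply reidx X hX _ _ (fun j => a - b - j)
          · intro x hx y hy h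
            rw [Finset.mem_filter] at hx hy
            omega
          · intro x _
            omega
        have hsum2 : ∑ b ∈ Finset.range (a + 1), ∑ j ∈ Finset.Icc J (2 * J),
            16 * D * f a * g * (if b + j ≤ a then X (a - b - j) else 0) ≤
            32 * q * M * D * f a := by
          have hcard : (Finset.Icc J (2 * J)).card = J + 1 := by
            rw [Nat.card_Icc]
            omega
          rw [Finset.sum_comm]
          have e1 : ∀ j ∈ Finset.Icc J (2 * J), ∑ b ∈ Finset.range (a + 1),
              16 * D * f a * g * (if b + j ≤ a then X (a - b - j) else 0) ≤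
              16 * D * f a * g * (2 * M) := by
            intro j _
            rw [← Finset.mul_sum]
            exact mul_le_mul_of_nonneg_left ((hinner2 j).trans (hX2 _)) (by positivity)
          refine (Finset.sum_le_sum e1).trans ?_
          rw [Finset.sum_const, hcard, nsmul_eq_mul]
          push_cast
          have h1 : (((J : ℝ) + 1) * g) * (32 * M * D * f a) ≤ q * (32 * M * D * f a) :=
            mul_le_mul_of_nonneg_right hgq (by positivity)
          linarith
        have hsum3 : ∑ b ∈ Finset.range (a + 1), ∑ j ∈ Finset.Icc J (2 * J),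
            (if a ≤ 8 * J then F b * g * (if b + j ≤ a then X (a - b - j) else 0) else 0) ≤
            R a * f a := by
          by_cases h8 : a ≤ 8 * J
          · rw [hRf a h8]
            simp only [if_pos h8]
            have hFa : ∑ i ∈ Finset.range (a + 1), F i ≤ M' := by
              refine le_trans (Finset.sum_le_sum_of_subset_of_nonneg ?_ ?_) hFM'
              · intro i hi
                rw [Finset.mem_range] at hi ⊢
                omega
              · intro i _ _
                exact hF i
            have hXa : ∑ i ∈ Finset.range (a + 1), X i ≤ 2 * M' := by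
              have := hmas (a + 1)
              linarith
            have e1 : ∀ b ∈ Finset.range (a + 1), ∑ j ∈ Finset.Icc J (2 * J),
                F b * g * (if b + j ≤ a then X (a - b - j) else 0) ≤ F b * (g * (2 * M')) := by
              intro b _
              rw [← Finset.mul_sum, mul_assoc]
              exact mul_le_mul_of_nonneg_left (mul_le_mul_of_nonneg_left
                ((hinner3 b).trans hXa) hg) (hF b)
            refine (Finset.sum_le_sum e1).trans ?_
            rw [← Finset.sum_mul]
            have h1 : (∑ i ∈ Finset.range (a + 1), F i) * (g * (2 * M')) ≤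
                M' * (g * (2 * M')) := mul_le_mul_of_nonneg_right hFa (by positivity)
            linarith
          · simp only [if_neg h8, Finset.sum_const_zero]
            exact mul_nonneg (hR0 a) hfa
        have hbig : ∑ b ∈ Finset.range (a + 1), ∑ j ∈ Finset.Icc J (2 * J),
            (if b + j ≤ a then F b * g * X (a - b - j) else 0) ≤
            4 * q * M * D * f a + 32 * q * M * D * f a + R a * f a := by
          refine (Finset.sum_le_sum (fun b hb => Finset.sum_le_sum (fun j hj =>
            hterm b hb j hj))).trans ?_
          simp only [Finset.sum_add_distrib]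
          linarith
        have h := hrec a
        have h2 := hFd a ha
        have h3 : F a ≤ d a * f a := h2
        calc X a ≤ F a + ∑ b ∈ Finset.range (a + 1), ∑ j ∈ Finset.Icc J (2 * J),
              (if b + j ≤ a then F b * g * X (a - b - j) else 0) := h
          _ ≤ d a * f a + (4 * q * M * D * f a + 32 * q * M * D * f a + R a * f a) :=
              add_le_add h3 hbig
          _ = (d a + (36 * q * M * D + R a)) * f a := by ring
    exact key

end Pool.Agent.H20.CU
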